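import Mathlib
import Pool.Agent.W484.SG.Stm
import Pool.Agent.W484.SG.Main

/-!
# A smooth dg algebra of finite type whose noncommutative motive is not Schur-finite

Let `k` be a field of characteristic zero and
`G = ⟨a, s, t | a² = 1, s t = t s, a (t a t⁻¹) = (t a t⁻¹) a, s a s⁻¹ = a (t a t⁻¹)⟩`.
Let `A` be the dg algebra which is obtained from the group algebra `k[F]` of the free group `F` on
`a`, `s`, `t` by adjoining four free generators `y` of degree one with `d y = r - 1` for the four
relators `r` (the chains on the loop space of the presentation complex). It is smooth and of finite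
type, and `H 0 (A) = k[G]`.

In the application `U` is the functor to noncommutative mixed motives with rational coefficients,
`P = U k` and `X = U (A ⊗ ⋯ ⊗ A) = U (A) ⊗ ⋯ ⊗ U (A)`. Then `Hom (P, X)` is the rational homotopy
K-theory `KH 0`, an idempotent of `H 0 (A ⊗ ⋯ ⊗ A) = k[G × ⋯ × G]` has a class in `K 0`, and `trace` is
the Chern character `KH 0 → HP 0 → HC 0 (A ⊗ ⋯ ⊗ A) = R / [R, R]` with `R = k[G × ⋯ × G]`.
The theorem says that no element `c ≠ 0` of the group ring `ℚ[S n]` acts as zero on `X`. So the
Schur functors of `U (A)`, which are the images of such elements, are not zero.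
-/

set_option autoImplicit false

open CategoryTheory

namespace Pool.Agent.Results.MP_b5fdc6_ag.FiniteType

universe u v

open Pool.Agent.W484.SG

/-- The group has finitely many relators, and no element of the group ring of a symmetric group acts
as zero on a tensor power. -/
theorem result (k : Type) [Field k] [CharZero k] :
    rels.Finite ∧
    ∀ (C : Type u) [Category.{v} C] [Preadditive C] [Linear ℚ C] (n : ℕ) (m : Model k Gr n C)
      (c : Equiv.Perm (Fin n) → ℚ), c ≠ 0 → act m c ≠ 0 :=
  ⟨rels_finite, fun _ _ _ _ _ m c hc => act_ne_zero m c hc⟩

end Pool.Agent.Results.MP_b5fdc6_ag.FiniteType
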