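import Pool.Agent.W495.SF.Proof
import Pool.Agent.W495.SF.Points
import Pool.Agent.W495.SF.Reg

/-!
# The smooth dg algebra `k(t)` is not Schur-finite

The field `A = k(t)` of rational functions over a field `k` is smooth as a dg category over `k`: the
bimodule `A` has the resolution `0 → A ⊗ A → A ⊗ A → A → 0`, the first map being the multiplication by
`t ⊗ 1 - 1 ⊗ t`. The classes of the monic irreducible polynomials in `K₁(k(t))` and the residues at
the closed points of the affine line show that `U(k)[1]^{⊕ N}` is a direct summand of `U(k(t))` for
all `N`. So the group algebra `ℚ[Sₙ]` acts faithfully on `U(k(t))^{⊗n}` for every `n`, and no Schur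
functor kills `U(k(t))`.
-/

namespace Pool.Agent.Results.MP_b5fdc6_ag.FunctionFieldNotSchurFinite

open CategoryTheory Pool.Agent.W495.SF

/-- Over every field `k`, the algebra `k(t)` is smooth (its diagonal bimodule has a resolution by free
bimodules of rank one of length one), and its noncommutative mixed motive `a = U(k(t))` is not
Schur-finite: `ℚ[Sₙ]` acts faithfully on `a^{⊗n}` for all `n`. -/
theorem result (k : Type*) [Field k] :
    HasLengthOneResolution k (RatFunc k) ∧
    ∀ (C : Type*) [Category C] [Preadditive C] [Linear ℚ C] (P : TensorPowers C) (L a : C),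
      FunctionFieldFacts k P L a →
        (∀ n : ℕ, Function.Injective (P.act n a)) ∧ ¬ SchurFinite P a := by
  refine ⟨hasLengthOneResolution k, fun C _ _ _ P L a D => ?_⟩
  have hinf : Infinite (Point k) := infinite_point k
  let e : ℕ ↪ Point k := Infinite.natEmbedding (Point k)
  have hdeg : ∀ f : Point k, (f.1.natDegree : ℚ) ≠ 0 := fun f => by
    have : 0 < f.1.natDegree := f.2.2.natDegree_pos
    exact_mod_cast this.ne'
  have h : ∀ n : ℕ, Function.Injective (P.act n a) :=
    act_injective P L a D.pow_ne_zero (fun s => D.sym (e s))
      (fun s => ((e s).1.natDegree : ℚ)⁻¹ • D.res (e s))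
      (fun s => by
        rw [Linear.comp_smul, D.res_self, smul_smul, inv_mul_cancel₀ (hdeg _), one_smul])
      (fun s t hst => by
        rw [Linear.comp_smul, D.res_of_ne _ _ (fun h => hst (e.injective h.symm)), smul_zero])
  exact ⟨h, not_schurFinite P a h⟩

end Pool.Agent.Results.MP_b5fdc6_ag.FunctionFieldNotSchurFinite
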